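import Pool.Agent.Helper38.SD.Defs2

/-!
# Project SC (MP_fc6b1e_nt): symmetric characters of cyclic CM fields, definitions

`Ω` is the algebraic closure of the number field `K`, `p` is a prime number.
-/

set_option autoImplicit false

namespace Pool.Agent.Helper38.SC

open NumberField
open Pool.Agent.Helper38.FD (Chr CutsOut)

variable {p : ℕ} [Fact p.Prime] {K : Type} [Field K]

/-- `χ' = χ ^ γ`, i.e. `χ'(γ h γ⁻¹) = χ(h)` (`h' = γ h γ⁻¹`). -/
def ConjBy (γ : AlgebraicClosure K ≃+* AlgebraicClosure K)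
    (χ χ' : Chr K (AlgebraicClosure K) ℂ_[p]) : Prop :=
  ∀ h h' : AlgebraicClosure K ≃ₐ[K] AlgebraicClosure K, (∀ x, h' (γ x) = γ (h x)) → χ' h' = χ h

/-- `κ` is symmetric with respect to the automorphism `g` of `K`, up to a character in `A`: there are an extension `γ` of
`g` to `Ω`, an automorphism `τ` of `ℂ_p` over `ℚ_p` and `ξ ∈ A` with `κ ^ γ = τ(κ) ξ`. -/
def Sym [CharZero K] (A : Set (Chr K (AlgebraicClosure K) ℂ_[p])) (g : K ≃ₐ[ℚ] K)
    (κ : Chr K (AlgebraicClosure K) ℂ_[p]) : Prop :=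
  ∃ (γ : AlgebraicClosure K ≃+* AlgebraicClosure K) (τ : ℂ_[p] ≃ₐ[ℚ_[p]] ℂ_[p]), ∃ ξ ∈ A,
    (∀ x : K, γ (algebraMap K (AlgebraicClosure K) x) = algebraMap K (AlgebraicClosure K) (g x)) ∧
    ConjBy γ κ ((Units.map (τ : ℂ_[p] →* ℂ_[p])).comp κ * ξ)

/-- The set `{φ, φ g, …, φ g^(d-1)}`. -/
def Prog [CharZero K] (d : ℕ) (g : K ≃ₐ[ℚ] K) (φ : K →+* ℂ) : Set (K →+* ℂ) :=
  {ψ | ∃ i < d, ψ = φ.comp ((g ^ i : K ≃ₐ[ℚ] K) : K →+* K)}

/-- The CM type `S` is primitive (`K` is a Galois extension of `ℚ`): it is not stable under a non-trivial automorphism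
of `K`. -/
def Primitive [CharZero K] (S : Set (K →+* ℂ)) : Prop :=
  ∀ g : K ≃ₐ[ℚ] K, (∀ φ ∈ S, φ.comp (g : K →+* K) ∈ S) → g = 1

end Pool.Agent.Helper38.SC
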