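import Pool.Agent.Helper38.SC.Defs
import Pool.Agent.Helper38.SD.GoalsC

/-!
# Project SC (MP_fc6b1e_nt): goals

Every statement is a `def ... : Prop` with its complete proof in the docstring. `Ω` is the algebraic closure of `K`,
`G = Gal(Ω/K)`. Definitions: `Pool/Agent/Helper38/SC/Defs.lean` (`ConjBy`, `Prog`, `Primitive`), `Pool/Agent/Helper16/SD/Defs.lean`
(`chiPart`, `logKer`, `kd`), `Pool/Agent/Helper38/SD/Defs.lean` (`IsCyclo`), `Pool/Agent/Helper38/TH/DefsD.lean` (`IsTower`, `Hat`).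
-/

set_option autoImplicit false

namespace Pool.Agent.Helper38.SC

open NumberField Module IsDedekindDomain TensorProduct
open Pool.Agent.Helper51.SigLeo Pool.Agent.Helper51.RP
open Pool.Agent.Helper16.SD (kd chiPart logKer)
open Pool.Agent.Helper38.FD (Chr CutsOut)
open Pool.Agent.Helper38.TH (IsTower Hat)
open Pool.Agent.Helper38.SD (IsCyclo)

/-- **S_TRANS** (transport of the units and of the logarithms by an automorphism of `Ω`).

PROOF. Every `h' ∈ G` is `γ h γ⁻¹` for a unique `h ∈ G` (`h = γ⁻¹ h' γ` is `K`-linear because `γ` maps `K` onto `K`), and conversely. `F` is the fixed field of `Gal(Ω/F) = ker χ` (`InfiniteGalois.fixedField_fixingSubgroup`), `F'` that of `ker χ'`, and `χ' (γ h γ⁻¹) = χ h`; so `x ∈ F ↔ γ x ∈ F'`. Let `r : F ≃+* F'` be the restriction of `γ`, `u` the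
induced isomorphism of the groups of units of the rings of integers (`RingOfIntegers.mapRingEquiv`, `Units.mapEquiv`), `U : ℂ_p ⊗ Additive (𝓞 F)ˣ ≃ₗ ℂ_p ⊗ Additive (𝓞 F')ˣ` its linear extension (`LinearEquiv.lTensor`, or `TensorProduct.congr`; check every identity on pure tensors with `TensorProduct.induction_on`). (1) If `h' = γ h γ⁻¹` then `u (h x) = h' (u x)`, so
`extEnd (ug F' h') (U v) = U (extEnd (ug F h) v)`; hence `v ∈ chiPart F χ ↔ U v ∈ chiPart F' χ'`. (2) For an embedding `s : F' → ℂ_p`: `logUnits Lg s (u x) = logUnits Lg (s ∘ r) x`, so `extHom (logUnits Lg s) (U v) = extHom (logUnits Lg (s ∘ r)) v`. `s` is above `T` (`s ∘ algebraMap K F' ∈ T`) if and only if `s ∘ r` is above `T g := {σ ∘ g | σ ∈ T}`: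
`(s ∘ r) ∘ algebraMap K F = (s ∘ algebraMap K F') ∘ g`, and `g` is bijective; every embedding of `F` is `s ∘ r` with `s = t ∘ r⁻¹`. So `v ∈ logKer Lg F (T g) ↔ U v ∈ logKer Lg F' T`. So `U` maps `chiPart F χ ⊓ logKer Lg F (T g)` onto `chiPart F' χ' ⊓ logKer Lg F' T`, and the dimensions are equal (`LinearEquiv.finrank_map_eq`, `Submodule.map`). -/
def S_TRANS : Prop :=
  ∀ (p : ℕ) [Fact p.Prime] (K : Type) [Field K] [NumberField K] (Lg : IwasawaLog p ℂ_[p])
    (g : K ≃ₐ[ℚ] K) (γ : AlgebraicClosure K ≃+* AlgebraicClosure K),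
    (∀ x : K, γ (algebraMap K (AlgebraicClosure K) x) = algebraMap K (AlgebraicClosure K) (g x)) →
  ∀ χ χ' : Chr K (AlgebraicClosure K) ℂ_[p], ConjBy γ χ χ' →
  ∀ (F F' : IntermediateField K (AlgebraicClosure K)) [NumberField F] [IsGalois K F]
    [NumberField F'] [IsGalois K F'], CutsOut χ F → CutsOut χ' F' →
  ∀ T : Set (K →+* ℂ_[p]),
    kd Lg F' χ' T = kd Lg F χ ((fun σ : K →+* ℂ_[p] ↦ σ.comp (g : K →+* K)) '' T)

/-- **S_CYC** (the characters of the cyclotomic tower are invariant).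

PROOF. `ξ = η n ^ a`; it is enough to show `η n h' = η n h` if `h' (γ x) = γ (h x)` for all `x`. Let `θ = h' * h⁻¹ ∈ G`. Let `ζ^(p^m) = 1`; the group of the `p^m`-th roots of unity of `Ω` is cyclic with a generator `ζ₀` (a primitive root: `HasEnoughRootsOfUnity`, or `IsAlgClosed`), `h ζ₀ = ζ₀^a`, so `h x = x^a` for all `x` with `x^(p^m) = 1`, and `h' (γ x) = γ (x^a) = (γ x)^a`;
`γ` permutes the `p^m`-th roots of unity, so `h' x = x^a = h x` for all of them, and `θ ζ = h' (h⁻¹ ζ) = h (h⁻¹ ζ) = ζ`. So `η n θ = 1` (`IsCyclo.cyc`). -/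
def S_CYC : Prop :=
  ∀ (p : ℕ) [Fact p.Prime] (K : Type) [Field K] [NumberField K]
    (γ : AlgebraicClosure K ≃+* AlgebraicClosure K) (η : ℕ → Chr K (AlgebraicClosure K) ℂ_[p]),
    IsCyclo η → ∀ ξ ∈ Hat η, ConjBy γ ξ ξ

/-- **S_HAT** (the characters of a tower are permuted by the automorphisms of `ℂ_p`).

PROOF. `ξ = η n ^ a`. The values of `η n` are `p^n`-th roots of unity (`tower_ord` in the namespace `Pool.Agent.Helper57.TH`). The group of the `p^n`-th roots of unity of `ℂ_p` is cyclic, with a generator `ζ`; `τ ζ` is one of them, `τ ζ = ζ^b`, so `τ x = x^b` for all of them. So `τ ∘ ξ = η n ^ (a b)`. -/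
def S_HAT : Prop :=
  ∀ (p : ℕ) [Fact p.Prime] (K : Type) [Field K] (η : ℕ → Chr K (AlgebraicClosure K) ℂ_[p]),
    IsTower η → ∀ (τ : ℂ_[p] ≃ₐ[ℚ_[p]] ℂ_[p]), ∀ ξ ∈ Hat η,
      (Units.map (τ : ℂ_[p] →* ℂ_[p])).comp ξ ∈ Hat η

/-- **S_MAT** (a cyclic symmetry of the ranks: `d` consecutive vectors span).

PROOF. `f` is bijective (`I` is finite). (1) `LinearIndepOn k l T` if and only if there is `B ⊇ T` with `B.ncard = d` and `span (l '' B) = ⊤`: (⇒) extend (`exists_ext` in `Pool/Agent/Helper38/SD/Lin.lean`) `T` to `B`, independent, with the span of `range l`; `B.ncard = d` (`finrank_of_indep` there). (⇐) `d = finrank V` vectors which span are independent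
(`linearIndependent_iff_card_eq_finrank_span` or `linearIndependent_of_top_le_span_of_card_eq_finrank`), and `T ⊆ B` (`LinearIndepOn.mono`). So by the hypothesis `LinearIndepOn k l T ↔ LinearIndepOn k l (f '' T)` for all `T`, and the same for `f^[r]`. (2) Let `I_k = {f^[m] i | m < k}`. If `LinearIndepOn k l I_d`: `I_d` has exactly `d` elements (if two of the `f^[m] i`,
`m < d`, are equal, the orbit of `i`, which is all of `I`, has less than `d` elements, but `range l` spans a space of dimension `d`), so the span has dimension `d` and is `⊤`. Otherwise let `k < d` be maximal such that `I_k` is independent (`I_0 = ∅` is). Then `l (f^[k] i) ∈ W := span (l '' I_k)` (`I_{k+1} = I_k ∪ {f^[k] i}` is dependent: `linearIndepOn_insert`). By induction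
`l (f^[m] i) ∈ W` for all `m`: for `m = k + r` with `r ≥ 1`, by (1) `f^[r] '' I_k` is independent and `f^[r] '' I_{k+1}` is not, so `l (f^[k+r] i)` is in the span of the `l (f^[m'] i)`, `r ≤ m' < k + r`, which are in `W`. So `⊤ ≤ W`, `d ≤ finrank W ≤ I_k.ncard ≤ k < d`, a contradiction. -/
def S_MAT : Prop :=
  ∀ (k V I : Type) [Field k] [AddCommGroup V] [Module k V] [FiniteDimensional k V] [Finite I]
    (l : I → V) (f : I → I) (d : ℕ), finrank k V = d → Function.Injective f →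
    (∀ i j : I, ∃ n : ℕ, f^[n] i = j) → Submodule.span k (Set.range l) = ⊤ →
    (∀ T : Set I, Submodule.span k (l '' T) = ⊤ ↔ Submodule.span k (l '' (f '' T)) = ⊤) →
    ∀ i : I, Submodule.span k (l '' {j | ∃ m < d, j = f^[m] i}) = ⊤

/-- **S_TOR** (the embeddings are a torsor under a cyclic group of automorphisms).

PROOF. The `φ ∘ g^i`, `i < [K : ℚ]`, are pairwise different (`φ` is injective, `g` has order `[K : ℚ]`), and there are exactly `[K : ℚ]` embeddings (`NumberField.Embeddings.card`, or `AlgHom.card`), so they are all the embeddings. -/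
def S_TOR : Prop :=
  ∀ (K L : Type) [Field K] [NumberField K] [Field L] [CharZero L] [IsAlgClosed L] (g : K ≃ₐ[ℚ] K),
    orderOf g = finrank ℚ K → ∀ φ ψ : K →+* L,
      ∃ i < finrank ℚ K, ψ = φ.comp ((g ^ i : K ≃ₐ[ℚ] K) : K →+* K)

/-- **S_CM** (`Prog d g φ` is a CM type).

PROOF (from `S_TOR`). (1) For every `φ`: `conj φ = φ ∘ g^j` with `j < 2 d`; applying it twice, `φ = φ ∘ g^(2j)` (`conj (φ ∘ g^j) = (conj φ) ∘ g^j`), so `g^(2j) = 1`, `2 d ∣ 2 j`, `j = 0` or `j = d`; `j ≠ 0` because `φ` is not real (`K` is totally complex). So `conj φ = φ ∘ g^d`. (2) Let `ψ = φ ∘ g^i`, `i < 2 d`. `ψ ∈ Prog d g φ` if and only if `i < d` (the `φ ∘ g^i`,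
`i < 2 d`, are different), and `conj ψ = φ ∘ g^(i+d)` is in `Prog d g φ` if and only if `i ≥ d` (`i + d` or `i - d` is the exponent `< 2 d`). `IsCMType S` says `ψ ∈ S ↔ conj ψ ∉ S`. -/
def S_CM : Prop :=
  ∀ (K : Type) [Field K] [NumberField K] [IsTotallyComplex K] (g : K ≃ₐ[ℚ] K) (d : ℕ),
    finrank ℚ K = 2 * d → orderOf g = 2 * d →
    (∀ φ : K →+* ℂ, ComplexEmbedding.conjugate φ = φ.comp ((g ^ d : K ≃ₐ[ℚ] K) : K →+* K)) ∧
    ∀ φ : K →+* ℂ, IsCMType (Prog d g φ)

/-- **S_PRIM** (the primitive CM types in degree at most `8`).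

PROOF (from `S_TOR`, `S_CM`). Fix an embedding `φ₀` and let `X = {i ∈ ZMod (2 d) | φ₀ ∘ g^i ∈ S}` (`g^i` is well defined). By `S_CM` (1), `i ∈ X ↔ i + d ∉ X`; `Primitive S` says that no `a ≠ 0` satisfies `X + a ⊆ X`. By inspection (`decide` over the `2^d ≤ 16` possible sets `X`, given by their elements `< d`; for `d = 4` all the `16` sets, for `d = 3` all except
`{0, 2, 4}` and `{1, 3, 5}`, for `d = 2` all the `4`, for `d = 1` both) there are `a` prime to `2 d` and `b` with `X = {b + a m | 0 ≤ m < d}`. Then `g^a` has order `2 d` and `S = Prog d (g^a) (φ₀ ∘ g^b)`. (`d = 0` is impossible.) For instance for `d = 4`: the sets `{b, b+1, b+2, b+3}` and `{b, b+3, b+6, b+9}`. -/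
def S_PRIM : Prop :=
  ∀ (K : Type) [Field K] [NumberField K] [IsTotallyComplex K] (g : K ≃ₐ[ℚ] K) (d : ℕ),
    finrank ℚ K = 2 * d → orderOf g = 2 * d → d ≤ 4 →
    ∀ S : Set (K →+* ℂ), IsCMType S → Primitive S →
    ∃ (a : ℕ) (φ : K →+* ℂ), orderOf (g ^ a) = 2 * d ∧ S = Prog d (g ^ a) φ

/-- **S_DUO** (degree `4`: the translate of a CM type).

PROOF (from `S_CM`). Let `S' = {φ ∘ g | φ ∈ S}`. `conj φ = φ ∘ g²` for all `φ`. `IsCMType S'`: `φ ∈ S' ↔ φ ∘ g⁻¹ ∈ S`, and `conj (φ ∘ g⁻¹) = (conj φ) ∘ g⁻¹`. If `S' = S` then `S` is stable under `φ ↦ φ ∘ g`, so under `φ ↦ φ ∘ g² = conj φ`, a contradiction (`S` is not empty: there is an embedding, it or its conjugate is in `S`). If `S' = Sᶜ`: `Sᶜ` is the set of the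
`conj φ = φ ∘ g²`, `φ ∈ S`; so `{φ ∘ g | φ ∈ S} = {φ ∘ g² | φ ∈ S}`, hence `S = {φ ∘ g | φ ∈ S} = S'`, and we are in the first case. -/
def S_DUO : Prop :=
  ∀ (K : Type) [Field K] [NumberField K] [IsTotallyComplex K] (g : K ≃ₐ[ℚ] K),
    finrank ℚ K = 4 → orderOf g = 4 → ∀ S : Set (K →+* ℂ), IsCMType S →
    IsCMType ((fun φ : K →+* ℂ ↦ φ.comp (g : K →+* K)) '' S) ∧
    (fun φ : K →+* ℂ ↦ φ.comp (g : K →+* K)) '' S ≠ S ∧
    (fun φ : K →+* ℂ ↦ φ.comp (g : K →+* K)) '' S ≠ Sᶜ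

end Pool.Agent.Helper38.SC
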